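import Pool.Agent.Helper35.PI.St3

set_option autoImplicit false

namespace Helper94.PI

open Helper35.PI
open scoped ContDiff Manifold Topology ENNReal BigOperators NNReal
open MeasureTheory Set Filter

theorem hDC (hDPA : StDPA) (hC1 : StC1) (hI4 : StI4) : StDC := by
  intro n N hn M _ _ _ _ F hF t Λ ρ p ht hcomp hΛ hρ hρΛ hAA
  obtain ⟨L, hL⟩ := hC1 n N _ (hF.imm p t ht)
  have hL' : LinearMap.range L.toLinearMap = TS (n := n) F p t := hL
  obtain ⟨S, hScont, hS0, hSx, hSopen⟩ :=
    hDPA n N hn M F hF t Λ ρ p L ht hcomp hΛ hρ hρΛ hL' hAA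
  -- continuity of the immersion at time t
  have hG : Continuous (fun q : M => F q t) := by
    have h := (hI4 n N M F hF).1
    have h2 : Continuous (fun q : M => ((q, t) : M × ℝ)) := by fun_prop
    exact h.comp_continuous h2 (fun q => ⟨mem_univ _, ht⟩)
  set B : Set M := {q : M | ‖F q t - F p t‖ ≤ ρ} with hB
  have hBclosed : IsClosed B := isClosed_le (by fun_prop) continuous_const
  have hpB : p ∈ B := by simp [hB, hρ.le]
  set C : Set M := connectedComponentIn B p with hC
  have hCpre : IsPreconnected C := isPreconnected_connectedComponentIn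
  have hpC : p ∈ C := mem_connectedComponentIn hpB
  have hCB : C ⊆ B := connectedComponentIn_subset B p
  have hCclosed : IsClosed C := by
    rw [hC, connectedComponentIn_eq_image hpB]
    exact hBclosed.isClosedEmbedding_subtypeVal.isClosedMap _ isClosed_connectedComponent
  -- the adjoint of L
  set Ls : EE N →L[ℝ] EE n := ContinuousLinearMap.adjoint L.toContinuousLinearMap with hLs
  have hLs_inner : ∀ (w : EE N) (v : EE n), (inner ℝ (Ls w) v : ℝ) = inner ℝ w (L v) := by
    intro w v
    rw [hLs, ContinuousLinearMap.adjoint_inner_left]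
    rfl
  have hLs_norm : ‖Ls‖ ≤ 1 := by
    rw [hLs, LinearIsometryEquiv.norm_map]
    exact L.norm_toContinuousLinearMap_le
  have hLs_le : ∀ w, ‖Ls w‖ ≤ ‖w‖ := by
    intro w
    have := Ls.le_of_opNorm_le hLs_norm w
    simpa using this
  have hφ : ∀ x ∈ Metric.closedBall (0 : EE n) (2 * ρ), Ls (F (S x) t - F p t) = x := by
    intro x hx
    have h := (hSx x hx).2
    have h2 : Ls (F (S x) t - F p t) - x = 0 := by
      have h3 : (inner ℝ (Ls (F (S x) t - F p t) - x) (Ls (F (S x) t - F p t) - x) : ℝ) = 0 := by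
        set v := Ls (F (S x) t - F p t) - x with hv
        have h4 : (inner ℝ v v : ℝ) = inner ℝ (F (S x) t - F p t - L x) (L v) := by
          calc (inner ℝ v v : ℝ) = inner ℝ (Ls (F (S x) t - F p t)) v - inner ℝ x v := by
                rw [← inner_sub_left, ← hv]
            _ = inner ℝ (F (S x) t - F p t) (L v) - inner ℝ (L x) (L v) := by
                rw [hLs_inner, L.inner_map_map]
            _ = _ := by rw [← inner_sub_left]
        rw [h4, h v]
      exact inner_self_eq_zero.1 h3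
    exact sub_eq_zero.1 h2
  -- C is contained in the image of the small closed ball
  have hsub1 : Metric.closedBall (0 : EE n) ρ ⊆ Metric.ball (0 : EE n) (2 * ρ) :=
    Metric.closedBall_subset_ball (by linarith)
  have hsub2 : Metric.ball (0 : EE n) (2 * ρ) ⊆ Metric.closedBall (0 : EE n) (2 * ρ) :=
    Metric.ball_subset_closedBall
  have hUopen : IsOpen (S '' Metric.ball 0 (2 * ρ)) := hSopen _ le_rfl
  have hKcomp : IsCompact (S '' Metric.closedBall 0 ρ) :=
    (isCompact_closedBall _ _).image_of_continuousOn (hScont.mono (hsub1.trans hsub2))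
  have hCU : C ∩ (S '' Metric.ball 0 (2 * ρ)) ⊆ S '' Metric.closedBall 0 ρ := by
    rintro q ⟨hqC, x, hx, rfl⟩
    refine ⟨x, ?_, rfl⟩
    have h1 := hφ x (hsub2 hx)
    have h2 := hLs_le (F (S x) t - F p t)
    rw [h1] at h2
    have h3 : ‖F (S x) t - F p t‖ ≤ ρ := hCB hqC
    rw [mem_closedBall_zero_iff]
    exact h2.trans h3
  have hpK : p ∈ S '' Metric.closedBall 0 ρ := ⟨0, by simp [hρ.le], hS0⟩
  have hCsub : C ⊆ S '' Metric.ball 0 (2 * ρ) := by
    have k1 : C ⊆ S '' Metric.ball 0 (2 * ρ) ∪ (S '' Metric.closedBall 0 ρ)ᶜ := by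
      intro q _
      by_cases hq : q ∈ S '' Metric.closedBall 0 ρ
      · exact Or.inl (image_mono hsub1 hq)
      · exact Or.inr hq
    have k2 : C ∩ (S '' Metric.ball 0 (2 * ρ) ∩ (S '' Metric.closedBall 0 ρ)ᶜ) = ∅ := by
      rw [eq_empty_iff_forall_notMem]
      rintro q ⟨hqC, hqU, hqK⟩
      exact hqK (hCU ⟨hqC, hqU⟩)
    rcases isPreconnected_iff_subset_of_disjoint.1 hCpre (S '' Metric.ball 0 (2 * ρ))
      (S '' Metric.closedBall 0 ρ)ᶜ hUopen hKcomp.isClosed.isOpen_compl k1 k2 with h | h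
    · exact h
    · exact absurd hpK (h hpC)
  have hCK : C ⊆ S '' Metric.closedBall 0 ρ := fun q hq => hCU ⟨hq, hCsub hq⟩
  refine ⟨hKcomp.of_isClosed_subset hCclosed hCK, ?_⟩
  -- the area
  have hsub3 : Metric.closedBall (0 : EE n) (ρ / 2) ⊆ Metric.closedBall (0 : EE n) (2 * ρ) :=
    Metric.closedBall_subset_closedBall (by linarith)
  have hSC : S '' Metric.closedBall 0 (ρ / 2) ⊆ C := by
    refine IsPreconnected.subset_connectedComponentIn ?_ ⟨0, by simp; linarith, hS0⟩ ?_
    · exact (convex_closedBall _ _).isPreconnected.image _ (hScont.mono hsub3)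
    · rintro _ ⟨x, hx, rfl⟩
      have h1 := (hSx x (hsub3 hx)).1
      rw [mem_closedBall_zero_iff] at hx
      show ‖F (S x) t - F p t‖ ≤ ρ
      linarith
  have hlip : LipschitzWith 1 (fun w : EE N => Ls (w - F p t)) := by
    refine LipschitzWith.of_dist_le_mul fun a b => ?_
    rw [dist_eq_norm, dist_eq_norm, ← map_sub]
    have h := hLs_le (a - F p t - (b - F p t))
    have e : a - F p t - (b - F p t) = a - b := by abel
    rw [e] at h ⊢
    simpa using h
  have hsub4 : Metric.closedBall (0 : EE n) (ρ / 2) ⊆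
      (fun w : EE N => Ls (w - F p t)) '' ((fun q => F q t) '' C) := by
    intro x hx
    exact ⟨F (S x) t, ⟨S x, hSC ⟨x, hx, rfl⟩, rfl⟩, hφ x (hsub3 hx)⟩
  have h1 := hlip.hausdorffMeasure_image_le (d := (n : ℝ)) (Nat.cast_nonneg n) ((fun q => F q t) '' C)
  have h2 : μH[(n : ℝ)] (Metric.closedBall (0 : EE n) (ρ / 2)) ≤
      μH[(n : ℝ)] ((fun w : EE N => Ls (w - F p t)) '' ((fun q => F q t) '' C)) := measure_mono hsub4
  refine h2.trans (h1.trans (le_of_eq ?_))
  simp

end Helper94.PI
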