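import Pool.Agent.Helper35.PI.St2

set_option autoImplicit false

namespace Helper94.PI

open Helper35.PI
open scoped ContDiff Manifold Topology ENNReal BigOperators
open MeasureTheory Set Filter

private lemma g10_fst {n N : ℕ} (L : EE n →ₗᵢ[ℝ] EE N) (z : EE n × ℝ) :
    ContDiffAt ℝ 2 (fun z : EE n × ℝ => L z.1) z ∧
    (∀ k, jg (fun z : EE n × ℝ => L z.1) z k = L (ee k)) ∧
    jh (fun z : EE n × ℝ => L z.1) z = 0 := by
  set Φ : EE n × ℝ →L[ℝ] EE N := L.toContinuousLinearMap.comp (ContinuousLinearMap.fst ℝ (EE n) ℝ) with hΦ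
  have e : (fun z : EE n × ℝ => L z.1) = fun z => Φ z := by
    funext z; simp [hΦ]
  have hg : ∀ (z : EE n × ℝ) k, jg (fun z : EE n × ℝ => L z.1) z k = L (ee k) := by
    intro z k
    rw [e]
    unfold jg
    rw [Φ.fderiv]
    simp [hΦ]
  refine ⟨by rw [e]; exact Φ.contDiff.contDiffAt, hg z, ?_⟩
  unfold jh jgg
  have h1 : jt (fun z : EE n × ℝ => L z.1) z = 0 := by
    rw [e]
    unfold jt
    rw [Φ.fderiv]
    simp [hΦ]
  rw [h1]
  have h2 : ∀ k : Fin n, jg (fun z' => jg (fun z : EE n × ℝ => L z.1) z' k) z k = 0 := by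
    intro k
    have : (fun z' => jg (fun z : EE n × ℝ => L z.1) z' k) = fun _ => L (ee k) := by
      funext z'; exact hg z' k
    rw [this]
    unfold jg
    simp
  simp [h2]

private lemma g10_snd {n N : ℕ} (c : ℝ → EE N) (c' : EE N) (x : EE n) (t : ℝ) (hc : ContDiffAt ℝ 2 c t)
    (hc' : HasDerivAt c c' t) :
    ContDiffAt ℝ 2 (fun z : EE n × ℝ => c z.2) (x, t) ∧
    (∀ k, jg (fun z : EE n × ℝ => c z.2) (x, t) k = 0) ∧
    jh (fun z : EE n × ℝ => c z.2) (x, t) = c' := by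
  have hcd : ContDiffAt ℝ 2 (fun z : EE n × ℝ => c z.2) (x, t) :=
    ContDiffAt.comp (x := (x, t)) (g := c) (f := fun z : EE n × ℝ => z.2) hc contDiffAt_snd
  have hdiff : ∀ᶠ z : EE n × ℝ in 𝓝 (x, t), DifferentiableAt ℝ c z.2 := by
    have h1 : ∀ᶠ s in 𝓝 t, ContDiffAt ℝ 2 c s := hc.eventually (by norm_num)
    have h2 : Tendsto (fun z : EE n × ℝ => z.2) (𝓝 (x, t)) (𝓝 t) := continuous_snd.continuousAt
    exact (h2.eventually h1).mono fun z hz => hz.differentiableAt (by norm_num)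
  have hfd : ∀ z : EE n × ℝ, DifferentiableAt ℝ c z.2 → ∀ w : EE n × ℝ,
      fderiv ℝ (fun z : EE n × ℝ => c z.2) z w = fderiv ℝ c z.2 w.2 := by
    intro z hz w
    have h := (hz.hasFDerivAt.comp z (hasFDerivAt_snd (𝕜 := ℝ) (p := z))).fderiv
    have e : (c ∘ Prod.snd : EE n × ℝ → EE N) = fun z => c z.2 := rfl
    rw [e] at h
    rw [h]
    simp
  have hg : ∀ᶠ z : EE n × ℝ in 𝓝 (x, t), ∀ k, jg (fun z : EE n × ℝ => c z.2) z k = 0 := by
    filter_upwards [hdiff] with z hz k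
    unfold jg
    rw [hfd z hz]
    simp
  refine ⟨hcd, hg.self_of_nhds, ?_⟩
  unfold jh jgg
  have h1 : jt (fun z : EE n × ℝ => c z.2) (x, t) = c' := by
    unfold jt
    rw [hfd _ hdiff.self_of_nhds]
    simp only
    rw [hc'.hasFDerivAt.fderiv]
    simp
  rw [h1]
  have h2 : ∀ k : Fin n, jg (fun z' => jg (fun z : EE n × ℝ => c z.2) z' k) (x, t) k = 0 := by
    intro k
    have h3 : (fun z' => jg (fun z : EE n × ℝ => c z.2) z' k) =ᶠ[𝓝 (x, t)] fun _ => (0 : EE N) := by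
      filter_upwards [hg] with z hz
      exact hz k
    unfold jg at h3 ⊢
    rw [h3.fderiv_eq]
    simp
  simp [h2]

theorem hG10 (hJA : StJA) (hJB : StJB) (hG2 : StG2) (hG0 : StG0) : StG10 := by
  intro n N x₀ L u t₀ hu
  have hz2 := (hG2 n N x₀ L u t₀ hu).self_of_nhds
  obtain ⟨d1, d2, -, dperp, -⟩ := hz2
  simp only at d1 d2
  have hGI : ∀ i j : Fin n, (gram (grf x₀ L u t₀) 0)⁻¹ i j = if i = j then 1 else 0 :=
    fun i j => (hG0 n N x₀ L u t₀ hu i j).2.1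
  have hdv1 : ∀ i, dv1 (grf x₀ L u t₀) 0 i = L (ee i) := by
    intro i
    rw [d1 i, hu.du0 i, add_zero]
  have hsff : ∀ i j, sff (grf x₀ L u t₀) 0 i j = jgg u (0, t₀) i j := by
    intro i j
    unfold sff nrm
    rw [d2 i j]
    have : ∀ k l : Fin n, (((gram (grf x₀ L u t₀) 0)⁻¹ k l *
        inner ℝ (jgg u (0, t₀) i j) (dv1 (grf x₀ L u t₀) 0 k)) • dv1 (grf x₀ L u t₀) 0 l) = 0 := by
      intro k l
      rw [hdv1 k, (dperp i j (ee k)).2, mul_zero, zero_smul]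
    simp [this]
  have hH : mcv (grf x₀ L u t₀) 0 = Hv (jgg u (0, t₀)) := by
    unfold mcv
    simp only [hGI, hsff]
    unfold Hv
    refine Finset.sum_congr rfl fun i _ => ?_
    simp
  refine ⟨hH, ?_⟩
  intro c c' hc hc'
  obtain ⟨f1, f2, f3⟩ := g10_fst L ((0 : EE n), t₀)
  obtain ⟨s1, s2, s3⟩ := g10_snd (n := n) c c' 0 t₀ hc hc'
  obtain ⟨-, jconst, jadd, -, -⟩ := hJA n (EE N) ((0 : EE n), t₀)
  have hu2 : ContDiffAt ℝ 2 u ((0 : EE n), t₀) := hu.smooth.of_le ENat.LEInfty.out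
  have hjhu : jh u ((0 : EE n), t₀) = 0 := by
    unfold jh
    have h := hu.pde.self_of_nhds
    simp only at h
    rw [h]
    simp only [hGI]
    rw [sub_eq_zero]
    refine Finset.sum_congr rfl fun i _ => ?_
    simp
  -- the sum
  have c0 : ContDiffAt ℝ 2 (fun _ : EE n × ℝ => x₀) ((0 : EE n), t₀) := contDiffAt_const
  obtain ⟨a1, a2, -, -⟩ := jadd (fun _ => x₀) (fun z => L z.1) c0 f1
  have cA : ContDiffAt ℝ 2 (fun z : EE n × ℝ => x₀ + L z.1) ((0 : EE n), t₀) := c0.add f1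
  obtain ⟨b1, b2, -, -⟩ := jadd (fun z => x₀ + L z.1) u cA hu2
  have cB : ContDiffAt ℝ 2 (fun z : EE n × ℝ => x₀ + L z.1 + u z) ((0 : EE n), t₀) := cA.add hu2
  obtain ⟨-, -, e1, e2⟩ := jadd (fun z => x₀ + L z.1 + u z) (fun z => c z.2) cB s1
  have cC : ContDiffAt ℝ 2 (fun z : EE n × ℝ => x₀ + L z.1 + u z - c z.2) ((0 : EE n), t₀) := cB.sub s1
  have gC : ∀ k, jg (fun z : EE n × ℝ => x₀ + L z.1 + u z - c z.2) ((0 : EE n), t₀) k = L (ee k) := by
    intro k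
    rw [e1 k, b1 k, a1 k, (jconst x₀).1 k, f2 k, hu.du0 k, s2 k]
    simp
  have hC : jh (fun z : EE n × ℝ => x₀ + L z.1 + u z - c z.2) ((0 : EE n), t₀) = -c' := by
    rw [e2, b2, a2, (jconst x₀).2, f3, hjhu, s3]
    simp
  have vC : (x₀ + L ((0 : EE n), t₀).1 + u ((0 : EE n), t₀) - c ((0 : EE n), t₀).2) = x₀ - c t₀ := by
    simp [hu.u0]
  have eq : (fun z : EE n × ℝ => ‖grf x₀ L u z.2 z.1 - c z.2‖ ^ 2) =
      fun z : EE n × ℝ => (inner ℝ (x₀ + L z.1 + u z - c z.2) (x₀ + L z.1 + u z - c z.2) : ℝ) := by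
    funext z
    rw [real_inner_self_eq_norm_sq]
    rfl
  obtain ⟨-, jb⟩ := hJB n N ((0 : EE n), t₀)
  obtain ⟨g1, g2⟩ := jb _ _ cC cC
  rw [eq]
  refine ⟨cC.inner ℝ cC, ?_, ?_⟩
  · intro k
    rw [g1 k, gC k, vC, real_inner_comm]
    ring
  · rw [g2, hC]
    simp only [gC, vC]
    have h1 : ∀ k : Fin n, (inner ℝ (L (ee k)) (L (ee k)) : ℝ) = 1 := by
      intro k
      rw [L.inner_map_map, real_inner_self_eq_norm_sq]
      unfold ee
      simp
    simp only [h1]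
    rw [Finset.sum_const, Finset.card_univ, Fintype.card_fin, nsmul_eq_mul, mul_one, inner_neg_left,
      inner_neg_right, real_inner_comm]
    ring

end Helper94.PI
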