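import Pool.Agent.Helper35.PI.St4

set_option autoImplicit false

namespace Helper94.PI

open Helper35.PI
open scoped ContDiff Manifold Topology ENNReal BigOperators
open MeasureTheory Set Filter

/-- derivative of `x ↦ (max 0 x)²` -/
private lemma v11_phi (x : ℝ) : HasDerivAt (fun x : ℝ => max 0 x ^ 2) (2 * max 0 x) x := by
  rcases lt_trichotomy x 0 with h | h | h
  · have e : (fun x : ℝ => max 0 x ^ 2) =ᶠ[𝓝 x] fun _ => (0 : ℝ) := by
      filter_upwards [gt_mem_nhds h] with y hy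
      rw [max_eq_left hy.le]; norm_num
    rw [max_eq_left h.le, mul_zero]
    exact (hasDerivAt_const x (0 : ℝ)).congr_of_eventuallyEq e
  · subst h
    rw [max_self, mul_zero]
    have h1 : (fun x : ℝ => max 0 x ^ 2) =O[𝓝 (0 : ℝ)] fun x : ℝ => ‖x - 0‖ ^ 2 := by
      refine Asymptotics.IsBigO.of_bound 1 (Eventually.of_forall fun x => ?_)
      rw [sub_zero, one_mul, norm_pow, norm_pow, norm_norm]
      refine pow_le_pow_left₀ (norm_nonneg _) ?_ 2
      rw [Real.norm_eq_abs, Real.norm_eq_abs, abs_of_nonneg (le_max_left 0 x)]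
      exact max_le (abs_nonneg x) (le_abs_self x)
    have h2 := h1.hasFDerivAt (𝕜 := ℝ) (by norm_num)
    have h3 := h2.hasDerivAt
    simpa using h3
  · have e : (fun x : ℝ => max 0 x ^ 2) =ᶠ[𝓝 x] fun x => x ^ 2 := by
      filter_upwards [lt_mem_nhds h] with y hy
      rw [max_eq_right hy.le]
    rw [max_eq_right h.le]
    refine HasDerivAt.congr_of_eventuallyEq ?_ e
    have := hasDerivAt_pow 2 x
    simpa using this

private lemma v11_phiC : ContDiff ℝ 1 (fun x : ℝ => max 0 x ^ 2) := by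
  rw [contDiff_one_iff_deriv]
  refine ⟨fun x => (v11_phi x).differentiableAt, ?_⟩
  have e : deriv (fun x : ℝ => max 0 x ^ 2) = fun x => 2 * max 0 x := by
    funext x; exact (v11_phi x).deriv
  rw [e]
  fun_prop

/-- the derivative of the cut off field in a chart -/
private lemma v11_der {n N : ℕ} (f : EE n → EE N) (y : EE n) (hf : DifferentiableAt ℝ f y) (C : ℝ)
    (v : EE n) :
    fderiv ℝ (fun y => (-6 * max 0 (C - ‖f y‖ ^ 2) ^ 2) • f y) y v =
      (-6 * max 0 (C - ‖f y‖ ^ 2) ^ 2) • fderiv ℝ f y v +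
        (24 * max 0 (C - ‖f y‖ ^ 2) * inner ℝ (f y) (fderiv ℝ f y v)) • f y := by
  have h1 : HasFDerivAt f (fderiv ℝ f y) y := hf.hasFDerivAt
  have h2 := h1.norm_sq
  have h3 := h2.const_sub C
  have h4 := (v11_phi (C - ‖f y‖ ^ 2)).comp_hasFDerivAt y h3
  have h5 := h4.const_mul (-6)
  have h6 := h5.smul h1
  have e : (fun y => (-6 * max 0 (C - ‖f y‖ ^ 2) ^ 2) • f y) =
      (fun y => (-6 * ((fun x : ℝ => max 0 x ^ 2) ∘ fun y => C - ‖f y‖ ^ 2) y)) • f := rfl
  rw [e, h6.fderiv]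
  simp only [Function.comp_apply, add_apply, smul_apply, ContinuousLinearMap.smulRight_apply,
    ContinuousLinearMap.comp_apply, innerSL_apply_apply, neg_apply, smul_eq_mul]
  congr 2
  ring

private lemma v11_real (u D : ℝ) (h : u ≤ D) :
    ENNReal.ofReal u + ENNReal.ofReal (-D) ≤ ENNReal.ofReal D + ENNReal.ofReal (-u) := by
  rcases le_total 0 u with hu | hu
  · rw [ENNReal.ofReal_of_nonpos (p := -D) (by linarith), ENNReal.ofReal_of_nonpos (p := -u) (by linarith),
      add_zero, add_zero]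
    exact ENNReal.ofReal_le_ofReal h
  · rcases le_total 0 D with hD | hD
    · rw [ENNReal.ofReal_of_nonpos (p := u) hu, ENNReal.ofReal_of_nonpos (p := -D) (by linarith), add_zero]
      exact zero_le
    · rw [ENNReal.ofReal_of_nonpos (p := u) hu, ENNReal.ofReal_of_nonpos (p := D) hD, zero_add, zero_add]
      exact ENNReal.ofReal_le_ofReal (by linarith)

/-- comparison of finitely many integrals -/
private lemma v11_sum {n : ℕ} (s : Finset ℕ) (T : ℕ → Set (EE n)) (D : ℕ → EE n → ℝ)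
    (hD : ∀ i, IntegrableOn (D i) (T i)) (h0 : ∑ i ∈ s, ∫ y in T i, D i y = 0)
    (A B : ℕ → EE n → ℝ≥0∞)
    (hAB : ∀ i y, A i y + ENNReal.ofReal (-D i y) ≤ ENNReal.ofReal (D i y) + B i y) :
    ∑ i ∈ s, ∫⁻ y in T i, A i y ≤ ∑ i ∈ s, ∫⁻ y in T i, B i y := by
  have k1 : ∀ i, (∫⁻ y in T i, A i y) + (∫⁻ y in T i, ENNReal.ofReal (-D i y)) ≤
      (∫⁻ y in T i, ENNReal.ofReal (D i y)) + ∫⁻ y in T i, B i y := by
    intro i
    have hm : AEMeasurable (D i) (volume.restrict (T i)) := (hD i).aemeasurable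
    have hmn : AEMeasurable (fun y => ENNReal.ofReal (-D i y)) (volume.restrict (T i)) :=
      hm.neg.ennreal_ofReal
    rw [← lintegral_add_right' _ hmn, ← lintegral_add_left' hm.ennreal_ofReal]
    exact lintegral_mono fun y => hAB i y
  have fP : ∀ i, (∫⁻ y in T i, ENNReal.ofReal (D i y)) ≠ ⊤ := fun i => (hD i).lintegral_lt_top.ne
  have fN : ∀ i, (∫⁻ y in T i, ENNReal.ofReal (-D i y)) ≠ ⊤ := fun i => (hD i).neg.lintegral_lt_top.ne
  have k2 : ∑ i ∈ s, (∫⁻ y in T i, ENNReal.ofReal (D i y)) =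
      ∑ i ∈ s, (∫⁻ y in T i, ENNReal.ofReal (-D i y)) := by
    have e : ∀ i ∈ s, ∫ y in T i, D i y = (∫⁻ y in T i, ENNReal.ofReal (D i y)).toReal -
        (∫⁻ y in T i, ENNReal.ofReal (-D i y)).toReal := fun i _ =>
      integral_eq_lintegral_pos_part_sub_lintegral_neg_part (hD i)
    rw [Finset.sum_congr rfl e, Finset.sum_sub_distrib, sub_eq_zero] at h0
    rw [← ENNReal.toReal_sum (fun i _ => fP i), ← ENNReal.toReal_sum (fun i _ => fN i)] at h0
    exact (ENNReal.toReal_eq_toReal_iff' (ENNReal.sum_ne_top.2 fun i _ => fP i)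
      (ENNReal.sum_ne_top.2 fun i _ => fN i)).1 h0
  have k3 := Finset.sum_le_sum (s := s) fun i _ => k1 i
  rw [Finset.sum_add_distrib, Finset.sum_add_distrib, k2, add_comm] at k3
  exact ENNReal.le_of_add_le_add_left (ENNReal.sum_ne_top.2 fun i _ => fN i) k3

/-- algebra of the divergence -/
private lemma v11_div {n N : ℕ} (hFR : StFR) (f : EE n → EE N) (x : EE n) (hf : LI f x) (w : ℝ)
    (hw : 0 ≤ w) (G : EE N) :
    -6 * n * w ^ 2 ≤ ∑ i, ∑ j, (gram f x)⁻¹ i j *
      inner ℝ ((-6 * w ^ 2) • dv1 f x i + (24 * w * inner ℝ G (dv1 f x i)) • G) (dv1 f x j) := by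
  obtain ⟨hpd, hu, -⟩ := hFR n N f x hf
  have e1 : ∀ i j, (gram f x)⁻¹ i j *
      inner ℝ ((-6 * w ^ 2) • dv1 f x i + (24 * w * inner ℝ G (dv1 f x i)) • G) (dv1 f x j) =
      -6 * w ^ 2 * ((gram f x)⁻¹ i j * gram f x j i) +
      24 * w * (inner ℝ G (dv1 f x i) * ((gram f x)⁻¹ i j * inner ℝ G (dv1 f x j))) := by
    intro i j
    have h1 : gram f x j i = inner ℝ (dv1 f x i) (dv1 f x j) := by
      unfold gram
      rw [Matrix.of_apply, real_inner_comm]
    rw [h1, inner_add_left, real_inner_smul_left, real_inner_smul_left]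
    ring
  simp only [e1, Finset.sum_add_distrib, ← Finset.mul_sum]
  have e2 : ∑ i, ∑ j, (gram f x)⁻¹ i j * gram f x j i = n := by
    have h2 : ∀ i, ∑ j, (gram f x)⁻¹ i j * gram f x j i = 1 := by
      intro i
      have h3 : ((gram f x)⁻¹ * gram f x) i i = 1 := by
        rw [Matrix.nonsing_inv_mul _ hu, Matrix.one_apply_eq]
      rw [Matrix.mul_apply] at h3
      exact h3
    simp [h2]
  have e3 : 0 ≤ ∑ i, inner ℝ G (dv1 f x i) * ∑ j, (gram f x)⁻¹ i j * inner ℝ G (dv1 f x j) := by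
    have h4 := hpd.inv.posSemidef.dotProduct_mulVec_nonneg (fun i => (inner ℝ G (dv1 f x i) : ℝ))
    simpa [dotProduct, Matrix.mulVec] using h4
  rw [e2]
  have e4 := mul_nonneg (mul_nonneg (by norm_num : (0:ℝ) ≤ 24) hw) e3
  linarith

private lemma v11_pt {n N : ℕ} (hI2 : StI2) (hFR : StFR) {M : Type} [TopologicalSpace M]
    [ChartedSpace (EE n) M] [IsManifold (𝓡 n) ∞ M] (F : M → ℝ → EE N) (hF : IsMCF (n := n) F)
    (O : Set M) (hO : IsOpen O) (t T₀ ρ : ℝ) (ht : t < 0) (q : M) (hq : q ∈ O) :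
    hN n F ρ T₀ q t ≤ dvg (n := n) F (indicator O fun q =>
        (-6 * max 0 (ρ ^ 2 - 2 * n * (t - T₀) - ‖F q t‖ ^ 2) ^ 2) • F q t) q t
      + inner ℝ (HH (n := n) F q t) (indicator O (fun q =>
        (-6 * max 0 (ρ ^ 2 - 2 * n * (t - T₀) - ‖F q t‖ ^ 2) ^ 2) • F q t) q) := by
  set C := ρ ^ 2 - 2 * n * (t - T₀) with hC
  set f := loc (n := n) F q t with hf
  set x := chartAt (EE n) q q with hx
  have hfx : f x = F q t := by
    rw [hf, hx]
    unfold loc
    rw [(chartAt (EE n) q).left_inv (mem_chart_source (EE n) q)]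
  have hd : DifferentiableAt ℝ f x := by
    have h1 := hI2 n N M F hF q
    have h2 : ContDiffAt ℝ ∞ (fun z : EE n × ℝ => F ((chartAt (EE n) q).symm z.1) z.2) (x, t) :=
      h1.contDiffAt (((chartAt (EE n) q).open_target.prod isOpen_Iio).mem_nhds
        ⟨mem_chart_target (EE n) q, ht⟩)
    have h3 : DifferentiableAt ℝ (fun z : EE n × ℝ => F ((chartAt (EE n) q).symm z.1) z.2)
        ((fun y : EE n => (y, t)) x) := h2.differentiableAt (by simp)
    have h4 : DifferentiableAt ℝ (fun y : EE n => (y, t)) x := by fun_prop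
    exact DifferentiableAt.comp (g := fun z : EE n × ℝ => F ((chartAt (EE n) q).symm z.1) z.2)
      (f := fun y : EE n => (y, t)) x h3 h4
  have e : (fun y => (indicator O fun q =>
        (-6 * max 0 (C - ‖F q t‖ ^ 2) ^ 2) • F q t) ((chartAt (EE n) q).symm y)) =ᶠ[𝓝 x]
      fun y => (-6 * max 0 (C - ‖f y‖ ^ 2) ^ 2) • f y := by
    have hc : ContinuousAt (chartAt (EE n) q).symm x :=
      (chartAt (EE n) q).continuousAt_symm (mem_chart_target (EE n) q)
    have h1 : ∀ᶠ y in 𝓝 x, (chartAt (EE n) q).symm y ∈ O := by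
      apply hc.preimage_mem_nhds
      rw [hx, (chartAt (EE n) q).left_inv (mem_chart_source (EE n) q)]
      exact hO.mem_nhds hq
    filter_upwards [h1] with y hy
    rw [indicator_of_mem hy]
    rfl
  have h := v11_div hFR f x (hF.imm q t ht) (max 0 (C - ‖f x‖ ^ 2)) (le_max_left _ _) (f x)
  rw [indicator_of_mem hq]
  unfold dvg
  rw [← hx, ← hf, e.fderiv_eq]
  simp only [v11_der f x hd C]
  have hsum : -6 * n * (max 0 (C - ‖f x‖ ^ 2)) ^ 2 ≤ ∑ i, ∑ j, (gram f x)⁻¹ i j *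
      inner ℝ ((-6 * (max 0 (C - ‖f x‖ ^ 2)) ^ 2) • fderiv ℝ f x (ee i) +
        (24 * (max 0 (C - ‖f x‖ ^ 2)) * inner ℝ (f x) (fderiv ℝ f x (ee i))) • f x) (dv1 f x j) := h
  have hw : wN n F ρ T₀ q t = max 0 (C - ‖f x‖ ^ 2) := by
    unfold wN
    rw [hfx, hC]
    congr 1
    ring
  unfold hN
  rw [hw, real_inner_smul_right, real_inner_comm, hfx] at *
  rw [hfx] at hsum
  have hw3 : 0 ≤ ‖HH (n := n) F q t‖ ^ 2 * max 0 (C - ‖F q t‖ ^ 2) ^ 3 :=
    mul_nonneg (by positivity) (pow_nonneg (le_max_left _ _) 3)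
  linarith

theorem hV11 (hV6 : StV6) (hV6a : StV6a) (hI2 : StI2) (hI3 : StI3) (hI4 : StI4) (hNR : StNR)
    (hFR : StFR) : StV11 := by
  intro n N hn M _ _ _ _ F hF c χ hPU O hO t T₀ ρ ht hK
  set Y : M → EE N := fun q => (-6 * max 0 (ρ ^ 2 - 2 * n * (t - T₀) - ‖F q t‖ ^ 2) ^ 2) • F q t
    with hY
  set K : Set M := {q : M | q ∈ O ∧ 0 ≤ ρ ^ 2 - ‖F q t‖ ^ 2 - 2 * n * (t - T₀)} with hKd
  have hKc : IsClosed K := hK.isClosed
  have hG : ContMDiff (𝓡 n) 𝓘(ℝ, EE N) ∞ (fun q => F q t) := by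
    have h1 : ContMDiff (𝓡 n) ((𝓡 n).prod 𝓘(ℝ, ℝ)) ∞ (fun q : M => (q, t)) :=
      contMDiff_id.prodMk contMDiff_const
    exact hF.smooth.comp_contMDiff h1 (fun q => ⟨mem_univ _, ht⟩)
  have hYs : ContMDiff (𝓡 n) 𝓘(ℝ, EE N) 1 Y := by
    have h1 : ContDiff ℝ 1 (fun e : EE N =>
        (-6 * max 0 (ρ ^ 2 - 2 * n * (t - T₀) - ‖e‖ ^ 2) ^ 2) • e) := by
      have h2 : ContDiff ℝ 1 (fun e : EE N => ρ ^ 2 - 2 * n * (t - T₀) - ‖e‖ ^ 2) :=
        contDiff_const.sub (contDiff_norm_sq ℝ)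
      have h3 : ContDiff ℝ 1 (fun e : EE N =>
        max 0 (ρ ^ 2 - 2 * n * (t - T₀) - ‖e‖ ^ 2) ^ 2) := v11_phiC.comp h2
      have h4 : ContDiff ℝ 1 (fun e : EE N =>
        -6 * max 0 (ρ ^ 2 - 2 * n * (t - T₀) - ‖e‖ ^ 2) ^ 2) := contDiff_const.mul h3
      exact ContDiff.smul h4 (contDiff_id (𝕜 := ℝ) (E := EE N))
    have h3 : ContMDiff (𝓡 n) 𝓘(ℝ, EE N) 1 (fun q => F q t) := hG.of_le (by simp)
    exact h1.contMDiff.comp h3
  have hnz : ∀ q, q ∉ K → indicator O Y q = 0 := by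
    intro q hq
    by_cases hqO : q ∈ O
    · rw [indicator_of_mem hqO]
      have h1 : ρ ^ 2 - 2 * n * (t - T₀) - ‖F q t‖ ^ 2 < 0 := by
        by_contra hcon
        exact hq ⟨hqO, by linarith⟩
      rw [hY]
      simp [max_eq_left h1.le]
    · exact indicator_of_notMem hqO Y
  have hXs : ContMDiff (𝓡 n) 𝓘(ℝ, EE N) 1 (indicator O Y) := by
    intro q
    by_cases hq : q ∈ O
    · refine (hYs q).congr_of_eventuallyEq ?_
      filter_upwards [hO.mem_nhds hq] with z hz
      exact indicator_of_mem hz Y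
    · have h1 : q ∉ K := fun h => hq h.1
      refine (contMDiffAt_const (c := (0 : EE N))).congr_of_eventuallyEq ?_
      filter_upwards [hKc.isOpen_compl.mem_nhds h1] with z hz
      exact hnz z hz
  have hts : tsupport (indicator O Y) ⊆ K := by
    refine closure_minimal (fun q hq => ?_) hKc
    by_contra hcon
    exact hq (hnz q hcon)
  have hcs : HasCompactSupport (indicator O Y) := hK.of_isClosed_subset (isClosed_tsupport _) hts
  have hfin : {i | (tsupport (χ i) ∩ K).Nonempty}.Finite := hPU.fin.finite_nonempty_inter_compact hK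
  set s : Finset ℕ := hfin.toFinset with hs
  have hχ0 : ∀ i ∉ s, ∀ q ∈ K, χ i q = 0 := by
    intro i hi q hq
    by_contra hcon
    apply hi
    rw [hs, Set.Finite.mem_toFinset]
    exact ⟨q, subset_tsupport _ hcon, hq⟩
  obtain ⟨hInt, hsum⟩ := hV6 n N M F hF t ht c χ hPU (indicator O Y) hXs hcs s
    (fun i hi q hq => hχ0 i hi q (hts hq))
  have hh0 : ∀ q ∈ O, q ∉ K → hN n F ρ T₀ q t = 0 := by
    intro q hqO hq
    have h1 : ρ ^ 2 - ‖F q t‖ ^ 2 - 2 * n * (t - T₀) < 0 := by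
      by_contra hcon
      exact hq ⟨hqO, by linarith⟩
    have h2 : wN n F ρ T₀ q t = 0 := max_eq_left h1.le
    unfold hN
    rw [h2]
    ring
  have hz1 : ∀ i ∉ s, ∀ q, ENNReal.ofReal (χ i q) *
      indicator O (fun q => ENNReal.ofReal (hN n F ρ T₀ q t)) q = 0 := by
    intro i hi q
    by_cases hqK : q ∈ K
    · rw [hχ0 i hi q hqK]; simp
    · by_cases hqO : q ∈ O
      · rw [indicator_of_mem hqO, hh0 q hqO hqK]; simp
      · rw [indicator_of_notMem hqO]; simp
  have hz2 : ∀ i ∉ s, ∀ q, ENNReal.ofReal (χ i q) *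
      indicator O (fun q => ENNReal.ofReal (-hN n F ρ T₀ q t)) q = 0 := by
    intro i hi q
    by_cases hqK : q ∈ K
    · rw [hχ0 i hi q hqK]; simp
    · by_cases hqO : q ∈ O
      · rw [indicator_of_mem hqO, hh0 q hqO hqK]; simp
      · rw [indicator_of_notMem hqO]; simp
  unfold Lam
  rw [tsum_eq_sum (s := s) (fun i hi => by simp only [hz1 i hi, zero_mul, lintegral_zero]),
    tsum_eq_sum (s := s) (fun i hi => by simp only [hz2 i hi, zero_mul, lintegral_zero])]
  refine v11_sum s (fun i => (chartAt (EE n) (c i)).target) _ hInt hsum _ _ ?_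
  intro i y
  set q := (chartAt (EE n) (c i)).symm y with hq
  have hσ : 0 ≤ sgm (loc (n := n) F (c i) t) y := Real.sqrt_nonneg _
  have hχ := hPU.nonneg i q
  by_cases hqO : q ∈ O
  · have hp := v11_pt hI2 hFR F hF O hO t T₀ ρ ht q hqO
    rw [indicator_of_mem (f := fun q => ENNReal.ofReal (hN n F ρ T₀ q t)) hqO,
      indicator_of_mem (f := fun q => ENNReal.ofReal (-hN n F ρ T₀ q t)) hqO,
      ← ENNReal.ofReal_mul hχ,
      ← ENNReal.ofReal_mul' hσ, ← ENNReal.ofReal_mul hχ, ← ENNReal.ofReal_mul' hσ]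
    have e : χ i q * -hN n F ρ T₀ q t * sgm (loc (n := n) F (c i) t) y =
        -(χ i q * hN n F ρ T₀ q t * sgm (loc (n := n) F (c i) t) y) := by ring
    rw [e]
    apply v11_real
    exact mul_le_mul_of_nonneg_right (mul_le_mul_of_nonneg_left hp hχ) hσ
  · rw [indicator_of_notMem (f := fun q => ENNReal.ofReal (hN n F ρ T₀ q t)) hqO,
      indicator_of_notMem (f := fun q => ENNReal.ofReal (-hN n F ρ T₀ q t)) hqO]
    have hd : dvg (n := n) F (indicator O Y) q t = 0 := by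
      have e : (fun y => (indicator O Y) ((chartAt (EE n) q).symm y)) =ᶠ[𝓝 (chartAt (EE n) q q)]
          fun _ => 0 := by
        have hc : ContinuousAt (chartAt (EE n) q).symm (chartAt (EE n) q q) :=
          (chartAt (EE n) q).continuousAt_symm (mem_chart_target (EE n) q)
        have h1 : ∀ᶠ y in 𝓝 (chartAt (EE n) q q), (chartAt (EE n) q).symm y ∈ Kᶜ := by
          apply hc.preimage_mem_nhds
          rw [(chartAt (EE n) q).left_inv (mem_chart_source (EE n) q)]
          exact hKc.isOpen_compl.mem_nhds (fun h => hqO h.1)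
        filter_upwards [h1] with y hy
        exact hnz _ hy
      unfold dvg
      rw [e.fderiv_eq]
      simp
    rw [hd, indicator_of_notMem hqO]
    simp

end Helper94.PI
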